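import Pool.Agent.Helper38_Strip.Statements

/-!
# LIS BASIC
-/

namespace Pool.Agent.Helper38_Strip.H51

open Finset MeasureTheory Filter Topology

theorem sg_succ (t i : ℕ) : sg (t + 1) i = -sg t i := by
  unfold sg
  by_cases h : (t + i) % 2 = 0
  · have h' : ¬ (t + 1 + i) % 2 = 0 := by omega
    simp [h, h']
  · have h' : (t + 1 + i) % 2 = 0 := by omega
    simp [h, h']

theorem ht_succ {N : ℕ} (t : ℕ) (c : Conf N) (m : ℕ) : ht (t + 1) c m = -ht t c m := by
  unfold ht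
  rw [← sum_neg_distrib]
  refine sum_congr rfl fun i _ => ?_
  split_ifs with h
  · exact sg_succ t i
  · simp

theorem ht_succ_succ {N : ℕ} (t : ℕ) (c : Conf N) (m : ℕ) : ht (t + 2) c m = ht t c m := by
  have h := ht_succ (t + 1) c m
  rw [show t + 1 + 1 = t + 2 from rfl] at h
  rw [h, ht_succ, neg_neg]

theorem pw_succ {N : ℕ} (x : ℝ) (t : ℕ) (c d : Conf N) : pw x t c d = pw x (t + 1) d c := by
  unfold pw
  have h : ((∀ m ≤ N, ht t d m ≤ ht t c m) ∧ ht t c N = ht t d N) ↔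
      ((∀ m ≤ N, ht (t + 1) c m ≤ ht (t + 1) d m) ∧ ht (t + 1) d N = ht (t + 1) c N) := by
    simp only [ht_succ, neg_le_neg_iff, neg_inj]
    constructor
    · rintro ⟨h1, h2⟩
      exact ⟨h1, h2.symm⟩
    · rintro ⟨h1, h2⟩
      exact ⟨h1, h2.symm⟩
  rw [if_congr h rfl rfl, Nat.add_comm (occ c)]

theorem pw_nonneg {N : ℕ} {x : ℝ} (hx : 0 ≤ x) (t : ℕ) (c d : Conf N) : 0 ≤ pw x t c d := by
  unfold pw
  split_ifs
  · positivity
  · exact le_rfl

theorem Zf_pos {x : ℝ} (hx : 0 < x) (t N : ℕ) : 0 < Zf x t N := by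
  unfold Zf
  refine sum_pos' (fun c _ => sum_nonneg fun d _ => pw_nonneg hx.le t c d)
    ⟨fun _ => false, mem_univ _, ?_⟩
  refine sum_pos' (fun d _ => pw_nonneg hx.le t _ d) ⟨fun _ => false, mem_univ _, ?_⟩
  unfold pw
  rw [if_pos ⟨fun m _ => le_rfl, rfl⟩]
  positivity

theorem Zf_succ (x : ℝ) (t N : ℕ) : Zf x (t + 1) N = Zf x t N := by
  unfold Zf
  rw [sum_comm]
  refine sum_congr rfl fun c _ => sum_congr rfl fun d _ => (pw_succ x t c d).symm

theorem st_nonneg {N : ℕ} {x : ℝ} (hx : 0 < x) (t : ℕ) (c : Conf N) : 0 ≤ st x t c :=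
  div_nonneg (sum_nonneg fun d _ => pw_nonneg hx.le t c d) (Zf_pos hx t N).le

theorem st_sum {x : ℝ} (hx : 0 < x) (N t : ℕ) : ∑ c : Conf N, st x t c = 1 := by
  unfold st
  rw [← sum_div]
  exact div_self (Zf_pos hx t N).ne'

theorem st_add_two {N : ℕ} (x : ℝ) (t : ℕ) (c : Conf N) : st x (t + 2) c = st x t c := by
  unfold st
  have h1 : Zf x (t + 2) N = Zf x t N := by
    have h := Zf_succ x (t + 1) N
    rw [show t + 1 + 1 = t + 2 from rfl] at h
    rw [h, Zf_succ]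
  rw [h1]
  congr 1
  refine sum_congr rfl fun d _ => ?_
  rw [pw_succ x t c d, pw_succ x (t + 1) d c]

theorem basic : BasicStatement := fun x hx N t =>
  ⟨Zf_pos hx t N, st_nonneg hx t, st_sum hx N t, st_add_two x t, Zf_succ x t N, pw_succ x t⟩

end Pool.Agent.Helper38_Strip.H51
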