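import Pool.Agent.Helper51_Strip.Basic

/-!
# LIS COMP
-/

namespace Pool.Agent.Helper38_Strip.H51

open Finset MeasureTheory Filter Topology

theorem le_mx {N : ℕ} (f : ℕ → ℤ) {m : ℕ} (hm : m ≤ N) : f m ≤ mx N f := by
  unfold mx
  exact Finset.le_sup' f (mem_range.2 (by omega))

theorem mx_le {N : ℕ} {f : ℕ → ℤ} {a : ℤ} (h : ∀ m ≤ N, f m ≤ a) : mx N f ≤ a := by
  unfold mx
  refine Finset.sup'_le _ _ fun m hm => h m ?_
  have := mem_range.1 hm
  omega

theorem abs_mx_sub_le {N : ℕ} {f g : ℕ → ℤ} {a : ℤ} (h : ∀ m ≤ N, |f m - g m| ≤ a) :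
    |mx N f - mx N g| ≤ a := by
  rw [abs_le]
  constructor
  · have : mx N g ≤ mx N f + a := mx_le fun m hm => by
      have h1 := abs_le.1 (h m hm)
      have h2 := le_mx f hm
      linarith [h1.1]
    linarith
  · have : mx N f ≤ mx N g + a := mx_le fun m hm => by
      have h1 := abs_le.1 (h m hm)
      have h2 := le_mx g hm
      linarith [h1.2]
    linarith

/-- the update is a contraction -/
theorem abs_updH_sub_le {N t : ℕ} {f g : ℕ → ℤ} (o : Row N) {a : ℤ}
    (h : ∀ m ≤ N, |f m - g m| ≤ a) : ∀ m ≤ N, |updH N t f o m - updH N t g o m| ≤ a := by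
  intro m hm
  unfold updH
  split_ifs with h1 h2
  all_goals first
    | exact h m hm
    | (have e1 := abs_le.1 (h m hm)
       have e2 := abs_le.1 (h (m - 1) (by omega))
       have e3 := abs_le.1 (h (min (m + 1) N) (by omega))
       rw [abs_le]
       omega)

theorem updH_add_const {N t : ℕ} (b : ℤ) (f : ℕ → ℤ) (o : Row N) (m : ℕ) :
    updH N t (fun m => b + f m) o m = b + updH N t f o m := by
  unfold updH
  beta_reduce
  split_ifs <;> omega

theorem updH_congr {N t : ℕ} {f g : ℕ → ℤ} (o : Row N) (h : ∀ m ≤ N, f m = g m) :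
    ∀ m ≤ N, updH N t f o m = updH N t g o m := by
  intro m hm
  unfold updH
  rw [h m hm, h (m - 1) (by omega), h (min (m + 1) N) (by omega)]

theorem comp (hU : UpdHStatement) : CompStatement := by
  intro N T hN c ω
  have key : ∀ (T : ℕ) (ω : Env T N), ∀ m ≤ N,
      |flatH N T ω m - ((run c T ω).1 + ht T (run c T ω).2 m)| ≤ AA 0 c := by
    intro T
    induction T with
    | zero =>
      intro ω m hm
      simp only [flatH, run, zero_add, zero_sub, abs_neg]
      exact le_mx (fun m => |ht 0 c m|) hm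
    | succ T ih =>
      intro ω m hm
      have h1 := abs_updH_sub_le (t := T) (ω (Fin.last T)) (ih fun s => ω s.castSucc) m hm
      rw [updH_add_const] at h1
      rw [← hU N T hN _ _ m hm] at h1
      rw [flatH, run]
      simp only
      rw [add_assoc]
      exact h1
  have h1 := abs_mx_sub_le (key T ω)
  have h2 : |(mx N fun m => (run c T ω).1 + ht T (run c T ω).2 m) - (run c T ω).1| ≤
      AA T (run c T ω).2 := by
    have h3 : |(mx N fun m => (run c T ω).1 + ht T (run c T ω).2 m) -
        mx N fun _ => (run c T ω).1| ≤ AA T (run c T ω).2 := by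
      refine abs_mx_sub_le fun m hm => ?_
      rw [add_sub_cancel_left]
      exact le_mx (fun m => |ht T (run c T ω).2 m|) hm
    have h4 : (mx N fun _ => (run c T ω).1) = (run c T ω).1 := by
      unfold mx
      simp
    rwa [h4] at h3
  have h5 : |Lf ω - (run c T ω).1| ≤
      |Lf ω - mx N fun m => (run c T ω).1 + ht T (run c T ω).2 m| +
      |(mx N fun m => (run c T ω).1 + ht T (run c T ω).2 m) - (run c T ω).1| :=
    abs_sub_le _ _ _
  unfold Lf at *
  linarith

end Pool.Agent.Helper38_Strip.H51
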