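import Pool.Agent.Helper51_Strip.Basic

/-!
# LIS PEQ, LAWT, VARM
-/

namespace Pool.Agent.Helper38_Strip.H51

open Finset MeasureTheory Filter Topology

/-! ### the maximum -/

theorem mx_const_add (N : ℕ) (a : ℤ) (f : ℕ → ℤ) : (mx N fun m => a + f m) = a + mx N f := by
  unfold mx
  apply le_antisymm
  · apply Finset.sup'_le
    intro m hm
    have := Finset.le_sup' f hm
    linarith
  · obtain ⟨m, hm, h⟩ := Finset.exists_mem_eq_sup' (nonempty_range_add_one (n := N)) f
    rw [h]
    exact Finset.le_sup' (fun m => a + f m) hm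

theorem mx_congr {N : ℕ} {f g : ℕ → ℤ} (h : ∀ m ≤ N, f m = g m) : mx N f = mx N g := by
  unfold mx
  refine Finset.sup'_congr _ rfl fun m hm => h m ?_
  have := mem_range.1 hm
  omega

/-! ### expectations -/

theorem rowP_sum {N : ℕ} (p : ℝ) : ∑ o : Row N, rowP p o = 1 := by
  unfold rowP
  have h := Finset.prod_univ_sum (fun _ : Fin (N + 1) => (univ : Finset Bool))
    (fun _ b => if b = true then p else 1 - p)
  rw [Fintype.piFinset_univ] at h
  rw [← h]
  simp

theorem rE_const {N : ℕ} (p a : ℝ) : (rE p fun _ : Row N => a) = a := by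
  unfold rE
  rw [← sum_mul, rowP_sum, one_mul]

theorem rE_add {N : ℕ} (p : ℝ) (F G : Row N → ℝ) :
    (rE p fun o => F o + G o) = rE p F + rE p G := by
  unfold rE
  rw [← sum_add_distrib]
  exact sum_congr rfl fun o _ => by ring

theorem rE_const_mul {N : ℕ} (p a : ℝ) (F : Row N → ℝ) :
    (rE p fun o => a * F o) = a * rE p F := by
  unfold rE
  rw [mul_sum]
  exact sum_congr rfl fun o _ => by ring

theorem rE_sum {N : ℕ} {ι : Type*} (s : Finset ι) (p : ℝ) (F : ι → Row N → ℝ) :
    (rE p fun o => ∑ i ∈ s, F i o) = ∑ i ∈ s, rE p (F i) := by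
  unfold rE
  rw [sum_comm]
  exact sum_congr rfl fun o _ => by rw [mul_sum]

theorem sE_add {N : ℕ} (x : ℝ) (t : ℕ) (F G : Conf N → ℝ) :
    (sE x t fun c => F c + G c) = sE x t F + sE x t G := by
  unfold sE
  rw [← sum_add_distrib]
  exact sum_congr rfl fun c _ => by ring

theorem sE_const_mul {N : ℕ} (x : ℝ) (t : ℕ) (a : ℝ) (F : Conf N → ℝ) :
    (sE x t fun c => a * F c) = a * sE x t F := by
  unfold sE
  rw [mul_sum]
  exact sum_congr rfl fun c _ => by ring

theorem sE_const {N : ℕ} {x : ℝ} (hx : 0 < x) (t : ℕ) (a : ℝ) :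
    (sE x t fun _ : Conf N => a) = a := by
  unfold sE
  rw [← sum_mul, st_sum hx N t, one_mul]

theorem sE_add_two {N : ℕ} (x : ℝ) (t : ℕ) (F : Conf N → ℝ) : sE x (t + 2) F = sE x t F := by
  unfold sE
  exact sum_congr rfl fun c _ => by rw [st_add_two]

/-! ### Poisson equation -/

theorem Psi_succ {N : ℕ} (x : ℝ) (t : ℕ) (c : Conf N) :
    Psi x (t + 1) c = ∑ g : Conf N, st x t g * ((mx N fun m => ht (t + 1) c m + ht t g m : ℤ) : ℝ) := by
  unfold Psi
  refine sum_congr rfl fun g _ => ?_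
  rw [show t + 1 + 1 = t + 2 from rfl, st_add_two]
  simp only [ht_succ_succ]

theorem peq (hD : DualStatement) (hS : StatStatement) : PeqStatement := by
  intro x hx hx1 N t hN c
  have key : ∀ o : Row N, (cur t c o : ℝ) + Psi x (t + 1) (upd t c o) =
      ∑ g : Conf N, st x t g * ((cur t g o : ℝ) +
        ((mx N fun m => ht t c m + ht (t + 1) (upd t g o) m : ℤ) : ℝ)) := by
    intro o
    rw [Psi_succ]
    have h1 : (cur t c o : ℝ) = ∑ g : Conf N, st x t g * (cur t c o : ℝ) := by
      rw [← sum_mul, st_sum hx N t, one_mul]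
    rw [h1, ← sum_add_distrib]
    refine sum_congr rfl fun g _ => ?_
    rw [← mul_add]
    congr 1
    have h2 := hD N t hN c g o
    have h3 : (mx N fun m => cur t c o + ht (t + 1) (upd t c o) m + ht t g m) =
        cur t c o + mx N fun m => ht (t + 1) (upd t c o) m + ht t g m := by
      rw [← mx_const_add]
      simp only [add_assoc]
    have h4 : (mx N fun m => ht t c m + (cur t g o + ht (t + 1) (upd t g o) m)) =
        cur t g o + mx N fun m => ht t c m + ht (t + 1) (upd t g o) m := by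
      rw [← mx_const_add]
      congr 1
      funext m
      ring
    rw [h3, h4] at h2
    exact_mod_cast h2
  simp only [key]
  rw [rE_sum]
  have h5 : ∀ g : Conf N, (rE (x ^ 2) fun o => st x t g * ((cur t g o : ℝ) +
        ((mx N fun m => ht t c m + ht (t + 1) (upd t g o) m : ℤ) : ℝ))) =
      st x t g * (rE (x ^ 2) fun o => (cur t g o : ℝ)) +
      st x t g * (rE (x ^ 2) fun o =>
        ((mx N fun m => ht t c m + ht (t + 1) (upd t g o) m : ℤ) : ℝ)) := by
    intro g
    rw [rE_const_mul, rE_add, mul_add]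
  simp only [h5]
  rw [sum_add_distrib, add_comm]
  congr 1
  exact hS x hx hx1 N t hN fun g => ((mx N fun m => ht t c m + ht (t + 1) g m : ℤ) : ℝ)

/-! ### environments -/

theorem eE_zero {N : ℕ} (p : ℝ) (F : Env 0 N → ℝ) : eE p F = F default := by
  unfold eE
  rw [Fintype.sum_unique, Fin.prod_univ_zero, one_mul]
  exact congrArg F (Subsingleton.elim _ _)

theorem eE_snoc {T N : ℕ} (p : ℝ) (F : Env (T + 1) N → ℝ) :
    eE p F = eE p fun ω : Env T N => rE p fun o => F (Fin.snoc ω o) := by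
  unfold eE rE
  rw [← (Fin.snocEquiv (fun _ : Fin (T + 1) => Row N)).sum_comp, Fintype.sum_prod_type, sum_comm]
  refine sum_congr rfl fun ω _ => ?_
  rw [mul_sum]
  refine sum_congr rfl fun o _ => ?_
  rw [Fin.prod_univ_castSucc]
  simp [Fin.snocEquiv]
  ring

theorem run_snoc {T N : ℕ} (c : Conf N) (ω : Env T N) (o : Row N) :
    run c (T + 1) (Fin.snoc ω o : Env (T + 1) N) =
      ((run c T ω).1 + cur T (run c T ω).2 o, upd T (run c T ω).2 o) := by
  have h1 : (fun s : Fin T => (Fin.snoc ω o : Env (T + 1) N) s.castSucc) = ω := by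
    funext s
    exact Fin.snoc_castSucc (α := fun _ => Row N) o ω s
  have h2 : (Fin.snoc ω o : Env (T + 1) N) (Fin.last T) = o :=
    Fin.snoc_last (α := fun _ => Row N) o ω
  rw [run]
  rw [h1, h2]

theorem lawt (hS : StatStatement) : LawTStatement := by
  intro x hx hx1 N T hN
  induction T with
  | zero =>
    intro F
    simp only [eE_zero, run]
  | succ T ih =>
    intro F
    simp only [eE_snoc, run_snoc]
    rw [ih fun c => rE (x ^ 2) fun o => F (upd T c o)]
    exact hS x hx hx1 N T hN F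

/-! ### the martingale -/

/-- the increment of the martingale -/
noncomputable def Dm {N : ℕ} (x : ℝ) (t : ℕ) (c : Conf N) (o : Row N) : ℝ :=
  (cur t c o : ℝ) + Psi x (t + 1) (upd t c o) - Psi x t c - vv x N t

theorem Dm_mean (hP : PeqStatement) {x : ℝ} (hx : 0 < x) (hx1 : x < 1) {N : ℕ} (hN : 1 ≤ N)
    (t : ℕ) (c : Conf N) : rE (x ^ 2) (Dm x t c) = 0 := by
  have h1 : (rE (x ^ 2) (Dm x t c)) =
      rE (x ^ 2) (fun o => ((cur t c o : ℝ) + Psi x (t + 1) (upd t c o)) +
        (-(Psi x t c + vv x N t))) := by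
    congr 1
    funext o
    unfold Dm
    ring
  rw [h1, rE_add, rE_const, hP x hx hx1 N t hN c]
  ring

theorem Xi_snoc {T N : ℕ} (x : ℝ) (c : Conf N) (ω : Env T N) (o : Row N) :
    Xi x (T + 1) c (Fin.snoc ω o : Env (T + 1) N) = Xi x T c ω + Dm x T (run c T ω).2 o := by
  unfold Xi Dm
  rw [run_snoc, sum_range_succ]
  push_cast
  ring

theorem eE_add {T N : ℕ} (p : ℝ) (F G : Env T N → ℝ) :
    (eE p fun ω => F ω + G ω) = eE p F + eE p G := by
  unfold eE
  rw [← sum_add_distrib]
  exact sum_congr rfl fun ω _ => by ring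

theorem Xi_mean (hP : PeqStatement) {x : ℝ} (hx : 0 < x) (hx1 : x < 1) {N : ℕ} (hN : 1 ≤ N)
    (T : ℕ) (c : Conf N) : (eE (x ^ 2) fun ω : Env T N => Xi x T c ω) = 0 := by
  induction T with
  | zero =>
    rw [eE_zero]
    simp [Xi, run]
  | succ T ih =>
    rw [eE_snoc]
    have : ∀ ω : Env T N, (rE (x ^ 2) fun o => Xi x (T + 1) c (Fin.snoc ω o : Env (T + 1) N)) =
        Xi x T c ω := by
      intro ω
      simp only [Xi_snoc]
      rw [rE_add, rE_const]
      have := Dm_mean hP hx hx1 hN T (run c T ω).2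
      rw [this, add_zero]
    simp only [this]
    exact ih

/-- the variance of one increment -/
noncomputable def Vt {x : ℝ} {N : ℕ} (t : ℕ) : ℝ :=
  sE x t fun c : Conf N => rE (x ^ 2) fun o => Dm x t c o ^ 2

theorem Xi_sq (hP : PeqStatement) (hL : LawTStatement) {x : ℝ} (hx : 0 < x) (hx1 : x < 1)
    {N : ℕ} (hN : 1 ≤ N) (T : ℕ) :
    (sE x 0 fun c : Conf N => eE (x ^ 2) fun ω : Env T N => Xi x T c ω ^ 2) =
      ∑ t ∈ range T, Vt (x := x) (N := N) t := by
  induction T with
  | zero =>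
    simp only [eE_zero, range_zero, sum_empty]
    simp [Xi, run, sE]
  | succ T ih =>
    rw [sum_range_succ, ← ih]
    have h1 : ∀ c : Conf N, (eE (x ^ 2) fun ω : Env (T + 1) N => Xi x (T + 1) c ω ^ 2) =
        (eE (x ^ 2) fun ω : Env T N => Xi x T c ω ^ 2) +
        eE (x ^ 2) fun ω : Env T N => rE (x ^ 2) fun o => Dm x T (run c T ω).2 o ^ 2 := by
      intro c
      rw [eE_snoc, ← eE_add]
      congr 1
      funext ω
      simp only [Xi_snoc]
      have h2 : ∀ o : Row N, (Xi x T c ω + Dm x T (run c T ω).2 o) ^ 2 =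
          (Xi x T c ω ^ 2 + (2 * Xi x T c ω) * Dm x T (run c T ω).2 o) +
            Dm x T (run c T ω).2 o ^ 2 := fun o => by ring
      simp only [h2]
      rw [rE_add, rE_add, rE_const, rE_const_mul]
      have := Dm_mean hP hx hx1 hN T (run c T ω).2
      rw [this]
      ring
    simp only [h1]
    rw [sE_add]
    congr 1
    exact hL x hx hx1 N T hN fun c => rE (x ^ 2) fun o => Dm x T c o ^ 2

theorem cur_add_two {N : ℕ} (t : ℕ) (c : Conf N) (o : Row N) : cur (t + 2) c o = cur t c o := by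
  unfold cur
  have : (t + 2) % 2 = t % 2 := by omega
  rw [this]

theorem upd_add_two {N : ℕ} (t : ℕ) (c : Conf N) (o : Row N) : upd (t + 2) c o = upd t c o := by
  unfold upd
  funext i
  have : (t + 2 + (i : ℕ)) % 2 = (t + i) % 2 := by omega
  rw [this]

theorem Psi_add_two {N : ℕ} (x : ℝ) (t : ℕ) (c : Conf N) : Psi x (t + 2) c = Psi x t c := by
  unfold Psi
  refine sum_congr rfl fun g _ => ?_
  rw [show t + 2 + 1 = (t + 1) + 2 from rfl, st_add_two]
  simp only [ht_succ_succ]

theorem vv_add_two (x : ℝ) (N t : ℕ) : vv x N (t + 2) = vv x N t := by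
  unfold vv
  rw [sE_add_two]
  simp only [cur_add_two]

theorem Dm_add_two {N : ℕ} (x : ℝ) (t : ℕ) (c : Conf N) (o : Row N) :
    Dm x (t + 2) c o = Dm x t c o := by
  unfold Dm
  rw [cur_add_two, upd_add_two, Psi_add_two, vv_add_two, Psi_add_two]

theorem Vt_add_two {x : ℝ} {N : ℕ} (t : ℕ) : Vt (x := x) (N := N) (t + 2) = Vt (x := x) (N := N) t := by
  unfold Vt
  rw [sE_add_two]
  simp only [Dm_add_two]

theorem Vt_sum {x : ℝ} {N : ℕ} (n : ℕ) :
    ∑ t ∈ range (2 * n), Vt (x := x) (N := N) t =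
      n * (Vt (x := x) (N := N) 0 + Vt (x := x) (N := N) 1) := by
  have hev : ∀ k : ℕ, Vt (x := x) (N := N) (2 * k) = Vt (x := x) (N := N) 0 := by
    intro k
    induction k with
    | zero => rfl
    | succ k ih => rw [show 2 * (k + 1) = 2 * k + 2 by ring, Vt_add_two, ih]
  have hod : ∀ k : ℕ, Vt (x := x) (N := N) (2 * k + 1) = Vt (x := x) (N := N) 1 := by
    intro k
    induction k with
    | zero => rfl
    | succ k ih => rw [show 2 * (k + 1) + 1 = (2 * k + 1) + 2 by ring, Vt_add_two, ih]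
  induction n with
  | zero => simp
  | succ n ih =>
    rw [show 2 * (n + 1) = 2 * n + 1 + 1 by ring, sum_range_succ, sum_range_succ, ih, hev, hod]
    push_cast
    ring

theorem sE_Psi_succ {x : ℝ} (N t : ℕ) :
    (sE x (t + 1) fun c : Conf N => Psi x (t + 1) c) = sE x t fun c : Conf N => Psi x t c := by
  unfold sE
  simp only [Psi_succ]
  simp only [Psi, mul_sum]
  rw [sum_comm]
  refine sum_congr rfl fun c _ => sum_congr rfl fun g _ => ?_
  have : (mx N fun m => ht (t + 1) g m + ht t c m) = mx N fun m => ht t c m + ht (t + 1) g m := by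
    congr 1
    funext m
    ring
  rw [this]
  ring

/-- the variance of an increment, expanded -/
theorem Vt_eq (hP : PeqStatement) (hS : StatStatement) {x : ℝ} (hx : 0 < x) (hx1 : x < 1)
    {N : ℕ} (hN : 1 ≤ N) (t : ℕ) :
    Vt (x := x) (N := N) t =
      (sE x t fun c : Conf N => rE (x ^ 2) fun o => (cur t c o : ℝ) ^ 2) +
      2 * (sE x t fun c : Conf N => rE (x ^ 2) fun o => (cur t c o : ℝ) * Psi x (t + 1) (upd t c o)) +
      (sE x (t + 1) fun c : Conf N => Psi x (t + 1) c ^ 2) -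
      (sE x t fun c : Conf N => Psi x t c ^ 2) -
      2 * vv x N t * (sE x t fun c : Conf N => Psi x t c) - vv x N t ^ 2 := by
  have h1 : ∀ c : Conf N, (rE (x ^ 2) fun o => Dm x t c o ^ 2) =
      ((rE (x ^ 2) fun o => (cur t c o : ℝ) ^ 2) +
      2 * (rE (x ^ 2) fun o => (cur t c o : ℝ) * Psi x (t + 1) (upd t c o)) +
      (rE (x ^ 2) fun o => Psi x (t + 1) (upd t c o) ^ 2)) +
      ((-1) * Psi x t c ^ 2 + ((-2 * vv x N t) * Psi x t c + (- vv x N t ^ 2))) := by
    intro c
    have h2 : ∀ o : Row N, Dm x t c o ^ 2 = ((cur t c o : ℝ) ^ 2 +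
        2 * ((cur t c o : ℝ) * Psi x (t + 1) (upd t c o)) + Psi x (t + 1) (upd t c o) ^ 2) +
        ((-2 * (Psi x t c + vv x N t)) * ((cur t c o : ℝ) + Psi x (t + 1) (upd t c o)) +
          (Psi x t c + vv x N t) ^ 2) := by
      intro o
      unfold Dm
      ring
    simp only [h2]
    rw [rE_add, rE_add, rE_add, rE_add, rE_const_mul, rE_const_mul, rE_const,
      hP x hx hx1 N t hN c]
    ring
  unfold Vt
  simp only [h1]
  rw [sE_add, sE_add, sE_add, sE_add, sE_add, sE_const_mul, sE_const_mul, sE_const_mul,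
    sE_const hx, hS x hx hx1 N t hN fun c => Psi x (t + 1) c ^ 2]
  ring

theorem cur_odd {N : ℕ} (c : Conf N) (o : Row N) : cur 1 c o = 0 := by
  unfold cur
  simp

theorem varm (hP : PeqStatement) (hL : LawTStatement) (hS : StatStatement) : VarMStatement := by
  intro x hx hx1 N n hN
  refine ⟨?_, ?_⟩
  · rw [Xi_sq hP hL hx hx1 hN, Vt_sum]
    congr 1
    rw [Vt_eq hP hS hx hx1 hN 0, Vt_eq hP hS hx hx1 hN 1]
    have hv : vv x N 1 = 0 := by
      unfold vv
      simp only [cur_odd, Int.cast_zero, rE_const]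
      rw [sE_const hx]
    have h2 : (sE x (1 + 1) fun c : Conf N => Psi x (1 + 1) c ^ 2) =
        sE x 0 fun c : Conf N => Psi x 0 c ^ 2 := by
      have h3 : ∀ c : Conf N, Psi x (1 + 1) c = Psi x 0 c := fun c => Psi_add_two x 0 c
      simp only [h3]
      exact sE_add_two x 0 _
    rw [hv, h2]
    simp only [cur_odd, Int.cast_zero, zero_mul, rE_const]
    rw [show (0 : ℝ) ^ 2 = 0 by norm_num]
    simp only [sE_const hx]
    unfold DD
    rw [show (0 : ℕ) + 1 = 1 from rfl, sE_Psi_succ N 0]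
    ring
  · simp only [Xi_mean hP hx hx1 hN]
    exact sE_const hx 0 0

end Pool.Agent.Helper38_Strip.H51
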