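import Pool.Agent.Helper51_Strip.Pex3

/-!
# LIS PEX: existence of the Poisson process
-/

namespace Pool.Agent.Helper38_Strip.H51P

open MeasureTheory ProbabilityTheory Filter Topology
open scoped ENNReal NNReal

/-- law of the counts -/
theorem map_KK {r : ℕ} {B : Fin r → Set Pt} (hB : ∀ i, MeasurableSet (B i))
    (hv : ∀ i, volume (B i) < ⊤) (hd : ∀ i j, i ≠ j → Disjoint (B i) (B j)) :
    PP.map (fun ω => fun j : Fin r => (KK (B j) ω : ℝ)) =
      Measure.pi fun j : Fin r =>
        (poissonMeasure (volume (B j)).toNNReal).map (Nat.cast : ℕ → ℝ) := by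
  have hm : Measurable (fun ω => fun j : Fin r => (KK (B j) ω : ℝ)) := by
    refine measurable_pi_iff.2 fun j => ?_
    exact measurable_from_nat.comp (measurable_KK (hB j))
  have : IsFiniteMeasure (PP.map (fun ω => fun j : Fin r => (KK (B j) ω : ℝ))) :=
    Measure.isFiniteMeasure_map _ _
  rw [← charFun_eq_pi_iff]
  intro t
  rw [charFun_apply, integral_map (by fun_prop) (by fun_prop), integral_map hm.aemeasurable (by fun_prop)]
  have h1 : ∀ ω, Complex.exp (((inner ℝ (WithLp.toLp 2 fun j : Fin r => (KK (B j) ω : ℝ)) t : ℝ) : ℂ) *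
      Complex.I) = Complex.exp (((∑ j, t j * (KK (B j) ω : ℝ) : ℝ) : ℂ) * Complex.I) := by
    intro ω
    rw [PiLp.inner_apply]
    congr 3
  simp only [h1]
  rw [charFun_KK hB hv hd, Complex.exp_sum]
  refine Finset.prod_congr rfl fun j _ => ?_
  rw [charFun_map_cast_poissonMeasure]
  rfl

theorem pex : PexStatement := by
  refine ⟨Om, inferInstance, PP, inferInstance, SS, ⟨fun B hB k => measurableSet_SS hB k, ?_⟩⟩
  intro r B hB hv hd k
  have h1 : PP (⋂ i, {ω | (SS ω ∩ B i).encard = k i}) =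
      PP ((fun ω => fun j : Fin r => (KK (B j) ω : ℝ)) ⁻¹'
        (Set.univ.pi fun j => {((k j : ℕ) : ℝ)})) := by
    have hfin : ∀ᵐ ω ∂PP, ∀ i, (JJ (B i) ω).Finite := by
      rw [ae_all_iff]
      intro i
      filter_upwards [ae_eventually (hB i) (hv i)] with ω hω
      obtain ⟨M₀, hM₀⟩ := Filter.eventually_atTop.1 hω
      obtain ⟨F, hF, -⟩ := JJ_eq (le_refl (B i)) hM₀
      rw [← hF]
      exact F.finite_toSet
    refine measure_congr ?_
    filter_upwards [ae_good, hfin] with ω hω hf
    apply propext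
    change (ω ∈ ⋂ i, {ω | (SS ω ∩ B i).encard = k i}) ↔
      ω ∈ ((fun ω => fun j : Fin r => (KK (B j) ω : ℝ)) ⁻¹'
        (Set.univ.pi fun j => {((k j : ℕ) : ℝ)}))
    simp only [Set.mem_iInter, Set.mem_ofPred_eq, Set.mem_preimage, Set.mem_pi, Set.mem_univ,
      forall_true_left, Set.mem_singleton_iff, Nat.cast_inj]
    refine forall_congr' fun i => ?_
    rw [encard_SS hω, KK, ← (hf i).cast_ncard_eq]
    exact Nat.cast_inj
  have hm : Measurable (fun ω => fun j : Fin r => (KK (B j) ω : ℝ)) := by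
    refine measurable_pi_iff.2 fun j => ?_
    exact measurable_from_nat.comp (measurable_KK (hB j))
  rw [h1, ← Measure.map_apply hm (MeasurableSet.univ_pi fun j => measurableSet_singleton _),
    map_KK hB hv hd, Measure.pi_pi]
  refine Finset.prod_congr rfl fun j _ => ?_
  rw [Measure.map_apply (by fun_prop) (measurableSet_singleton _)]
  have h2 : (Nat.cast : ℕ → ℝ) ⁻¹' {((k j : ℕ) : ℝ)} = {k j} := by
    ext n
    simp
  rw [h2, poissonMeasure_singleton]
  rfl

end Pool.Agent.Helper38_Strip.H51P
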