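import Pool.Agent.Helper38_Strip.Statements

/-!
# LIS PEX, part 1: product measures
-/

namespace Pool.Agent.Helper38_Strip.H51P

open MeasureTheory ProbabilityTheory Filter Topology
open scoped ENNReal NNReal

abbrev Pt := ℝ × ℝ

/-- unit squares -/
def usq (i : ℤ × ℤ) : Set Pt := Set.Ico (i.1 : ℝ) (i.1 + 1) ×ˢ Set.Ico (i.2 : ℝ) (i.2 + 1)

theorem measurableSet_usq (i : ℤ × ℤ) : MeasurableSet (usq i) :=
  measurableSet_Ico.prod measurableSet_Ico

theorem volume_usq (i : ℤ × ℤ) : volume (usq i) = 1 := by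
  unfold usq
  rw [Measure.volume_eq_prod, Measure.prod_prod, Real.volume_Ico, Real.volume_Ico]
  simp

theorem mem_usq_iff (i : ℤ × ℤ) (z : Pt) : z ∈ usq i ↔ ⌊z.1⌋ = i.1 ∧ ⌊z.2⌋ = i.2 := by
  unfold usq
  rw [Set.mem_prod, Set.mem_Ico, Set.mem_Ico, Int.floor_eq_iff, Int.floor_eq_iff]

/-- enumeration of the squares -/
noncomputable def en : ℕ ≃ ℤ × ℤ := (Denumerable.eqv (ℤ × ℤ)).symm

/-- the restriction of the area to a square -/
noncomputable def μs (n : ℕ) : Measure Pt := volume.restrict (usq (en n))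

instance (n : ℕ) : IsProbabilityMeasure (μs n) :=
  ⟨by rw [μs, Measure.restrict_apply_univ, volume_usq]⟩

instance (n : ℕ) : NullSingletonClass (μs n) := by
  unfold μs
  infer_instance

theorem tsum_μs {B : Set Pt} (hB : MeasurableSet B) : ∑' n, μs n B = volume B := by
  have h1 : Measure.sum (fun n => μs n) = (volume : Measure Pt) := by
    unfold μs
    rw [← Measure.restrict_iUnion]
    · have : (⋃ n, usq (en n)) = Set.univ := by
        rw [Set.eq_univ_iff_forall]
        intro z
        rw [Set.mem_iUnion]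
        obtain ⟨n, hn⟩ := en.surjective (⌊z.1⌋, ⌊z.2⌋)
        exact ⟨n, by rw [hn, mem_usq_iff]; exact ⟨rfl, rfl⟩⟩
      rw [this, Measure.restrict_univ]
    · intro n n' hnn
      rw [Function.onFun, Set.disjoint_left]
      intro z hz hz'
      rw [mem_usq_iff] at hz hz'
      apply hnn
      apply en.injective
      exact Prod.ext (hz.1.symm.trans hz'.1) (hz.2.symm.trans hz'.2)
    · exact fun n => measurableSet_usq _
  rw [← h1, Measure.sum_apply _ hB]

/-- law of the points in a square -/
noncomputable def Pn (n : ℕ) : Measure (ℕ × (ℕ → Pt)) :=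
  (poissonMeasure 1).prod (Measure.infinitePi fun _ : ℕ => μs n)

instance (n : ℕ) : IsProbabilityMeasure (Pn n) := by
  unfold Pn
  infer_instance

abbrev Om := ℕ → ℕ × (ℕ → Pt)

noncomputable def PP : Measure Om := Measure.infinitePi Pn

instance : IsProbabilityMeasure PP := by
  unfold PP
  infer_instance

/-- products over finitely many coordinates -/
theorem integral_prod_infinitePi {X : Type*} [MeasurableSpace X] (μ : ℕ → Measure X)
    [∀ i, IsProbabilityMeasure (μ i)] (N : ℕ) (f : ℕ → X → ℂ) (hf : ∀ i, Measurable (f i)) :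
    ∫ x, ∏ l ∈ Finset.range N, f l (x l) ∂(Measure.infinitePi μ) =
      ∏ l ∈ Finset.range N, ∫ x, f l x ∂(μ l) := by
  have h1 := integral_restrict_infinitePi (μ := μ) (s := Finset.range N)
    (f := fun y : (i : Finset.range N) → X => ∏ i : Finset.range N, f i (y i))
    (by
      refine Measurable.aestronglyMeasurable ?_
      exact Finset.measurable_fun_prod _ fun i _ => (hf i).comp (measurable_pi_apply i))
  have h2 : ∀ y : ℕ → X, ∏ i : Finset.range N, f i ((Finset.range N).restrict y i) =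
      ∏ l ∈ Finset.range N, f l (y l) := by
    intro y
    exact Finset.prod_coe_sort (Finset.range N) fun l => f l (y l)
  simp only [h2] at h1
  rw [h1, integral_fintype_prod_eq_prod (f := fun i : Finset.range N => f i)]
  exact Finset.prod_coe_sort (Finset.range N) fun l => ∫ x, f l x ∂(μ l)

/-- the product of `g` over the points of a square -/
noncomputable def Fn (g : Pt → ℂ) (z : ℕ × (ℕ → Pt)) : ℂ := ∏ l ∈ Finset.range z.1, g (z.2 l)

theorem measurable_Fn {g : Pt → ℂ} (hg : Measurable g) : Measurable (Fn g) := by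
  refine measurable_from_prod_countable_right fun N => ?_
  have h : Measurable fun y : ℕ → Pt => ∏ l ∈ Finset.range N, g (y l) :=
    Finset.measurable_fun_prod _ fun l _ => hg.comp (measurable_pi_apply l)
  exact h

theorem norm_Fn_le {g : Pt → ℂ} (hg : ∀ x, ‖g x‖ ≤ 1) (z : ℕ × (ℕ → Pt)) : ‖Fn g z‖ ≤ 1 := by
  unfold Fn
  rw [norm_prod]
  exact Finset.prod_le_one (fun _ _ => norm_nonneg _) fun l _ => hg _

theorem integral_Fn {g : Pt → ℂ} (hg : Measurable g) (hg1 : ∀ x, ‖g x‖ ≤ 1) (n : ℕ) :
    ∫ z, Fn g z ∂(Pn n) = Complex.exp ((∫ x, g x ∂(μs n)) - 1) := by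
  unfold Pn
  rw [integral_prod]
  · have h1 : ∀ N : ℕ, ∫ x : ℕ → Pt, Fn g (N, x) ∂(Measure.infinitePi fun _ : ℕ => μs n) =
        (∫ x, g x ∂(μs n)) ^ N := by
      intro N
      have := integral_prod_infinitePi (fun _ : ℕ => μs n) N (fun _ => g) fun _ => hg
      rw [Finset.prod_const, Finset.card_range] at this
      exact this
    simp only [h1]
    rw [integral_poissonMeasure]
    set c := ∫ x, g x ∂(μs n) with hc
    have h2 : ∀ N : ℕ, (Real.exp (-((1 : ℝ≥0) : ℝ)) * ((1 : ℝ≥0) : ℝ) ^ N / (N.factorial : ℝ)) • c ^ N =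
        Complex.exp (-1) * (c ^ N / (N.factorial : ℂ)) := by
      intro N
      rw [Complex.real_smul]
      push_cast
      rw [one_pow]
      ring
    simp only [h2]
    rw [tsum_mul_left, (NormedSpace.expSeries_div_hasSum_exp c).tsum_eq, ← Complex.exp_eq_exp_ℂ,
      ← Complex.exp_add]
    congr 1
    ring
  · refine Integrable.of_bound (measurable_Fn hg).aestronglyMeasurable 1 ?_
    exact Filter.Eventually.of_forall fun z => norm_Fn_le hg1 z

/-- the product over the first `M` squares -/
theorem integral_prod_Fn {g : Pt → ℂ} (hg : Measurable g) (hg1 : ∀ x, ‖g x‖ ≤ 1) (M : ℕ) :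
    ∫ ω, ∏ n ∈ Finset.range M, Fn g (ω n) ∂PP =
      Complex.exp (∑ n ∈ Finset.range M, ((∫ x, g x ∂(μs n)) - 1)) := by
  unfold PP
  rw [integral_prod_infinitePi Pn M (fun _ => Fn g) fun _ => measurable_Fn hg, Complex.exp_sum]
  exact Finset.prod_congr rfl fun n _ => integral_Fn hg hg1 n

end Pool.Agent.Helper38_Strip.H51P
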