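import Pool.Agent.Helper51_Strip.Pex1

/-!
# LIS PEX, part 2: the random set
-/

namespace Pool.Agent.Helper38_Strip.H51P

open MeasureTheory ProbabilityTheory Filter Topology
open scoped ENNReal NNReal

/-- indices of the points -/
def act (ω : Om) : Set (ℕ × ℕ) := {a | a.2 < (ω a.1).1}

/-- the points -/
def pt (ω : Om) (a : ℕ × ℕ) : Pt := (ω a.1).2 a.2

/-- all points are different -/
def good : Set Om := {ω | ∀ a b, a ≠ b → pt ω a ≠ pt ω b}

/-- the random set -/
def SS (ω : Om) : Set Pt := {x | ω ∈ good ∧ ∃ a ∈ act ω, pt ω a = x}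

/-- indices of the points in `B` -/
def JJ (B : Set Pt) (ω : Om) : Set (ℕ × ℕ) := {a | a ∈ act ω ∧ pt ω a ∈ B}

theorem measurable_pt (a : ℕ × ℕ) : Measurable fun ω => pt ω a :=
  (measurable_pi_apply a.2).comp (measurable_snd.comp (measurable_pi_apply a.1))

theorem measurable_num (n : ℕ) : Measurable fun ω : Om => (ω n).1 :=
  measurable_fst.comp (measurable_pi_apply n)

theorem measurableSet_act (a : ℕ × ℕ) : MeasurableSet {ω : Om | a ∈ act ω} :=
  measurableSet_lt measurable_const (measurable_num a.1)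

theorem measurableSet_mem_JJ {B : Set Pt} (hB : MeasurableSet B) (a : ℕ × ℕ) :
    MeasurableSet {ω : Om | a ∈ JJ B ω} :=
  (measurableSet_act a).inter (measurable_pt a hB)

theorem measurable_JJ {B : Set Pt} (hB : MeasurableSet B) : Measurable (JJ B) := by
  rw [measurable_set_iff]
  intro a
  refine measurable_to_prop ?_
  have : ((fun x => a ∈ JJ B x) ⁻¹' {True}) = {ω : Om | a ∈ JJ B ω} := by
    ext ω
    simp
  rw [this]
  exact measurableSet_mem_JJ hB a

theorem measurableSet_good : MeasurableSet good := by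
  have : good = ⋂ a : ℕ × ℕ, ⋂ b : ℕ × ℕ, {ω | a ≠ b → pt ω a ≠ pt ω b} := by
    ext ω
    simp [good]
  rw [this]
  refine MeasurableSet.iInter fun a => MeasurableSet.iInter fun b => ?_
  by_cases h : a = b
  · simp [h]
  · have h2 : {ω | a ≠ b → pt ω a ≠ pt ω b} = {ω : Om | pt ω a = pt ω b}ᶜ := by
      ext ω
      simp [h]
    rw [h2]
    exact (measurableSet_eq_fun (measurable_pt a) (measurable_pt b)).compl

theorem encard_SS {ω : Om} (hω : ω ∈ good) (B : Set Pt) :
    (SS ω ∩ B).encard = (JJ B ω).encard := by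
  have h1 : SS ω ∩ B = pt ω '' JJ B ω := by
    ext x
    constructor
    · rintro ⟨⟨-, a, ha, rfl⟩, hx⟩
      exact ⟨a, ⟨ha, hx⟩, rfl⟩
    · rintro ⟨a, ⟨ha, hx⟩, rfl⟩
      exact ⟨⟨hω, a, ha, rfl⟩, hx⟩
  rw [h1]
  refine Set.InjOn.encard_image ?_
  intro a _ b _ hab
  by_contra h
  exact hω a b h hab

theorem SS_bad {ω : Om} (hω : ω ∉ good) : SS ω = ∅ := by
  ext x
  simp [SS, hω]

theorem measurableSet_SS {B : Set Pt} (hB : MeasurableSet B) (k : ℕ) :
    MeasurableSet {ω : Om | (SS ω ∩ B).encard = k} := by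
  have h1 : {ω : Om | (SS ω ∩ B).encard = k} =
      (good ∩ {ω | (JJ B ω).encard = k}) ∪ (goodᶜ ∩ {_ω | ((0 : ℕ∞) = k)}) := by
    ext ω
    by_cases h : ω ∈ good
    · simp [h, encard_SS h]
    · simp [h, SS_bad h]
  rw [h1]
  refine (measurableSet_good.inter ?_).union (measurableSet_good.compl.inter ?_)
  · exact (measurable_encard.comp (measurable_JJ hB)) (measurableSet_singleton (k : ℕ∞))
  · exact MeasurableSet.const _

/-! ### the points are different almost surely -/

theorem mp_eval (n : ℕ) : MeasurePreserving (fun ω : Om => ω n) PP (Pn n) :=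
  measurePreserving_eval_infinitePi Pn n

theorem mp_snd (n : ℕ) : MeasurePreserving (fun ω : Om => (ω n).2) PP
    (Measure.infinitePi fun _ : ℕ => μs n) :=
  measurePreserving_snd.comp (mp_eval n)

theorem mp_pt (a : ℕ × ℕ) : MeasurePreserving (fun ω : Om => pt ω a) PP (μs a.1) :=
  (measurePreserving_eval_infinitePi (fun _ : ℕ => μs a.1) a.2).comp (mp_snd a.1)

theorem ae_pt_mem (a : ℕ × ℕ) : ∀ᵐ ω ∂PP, pt ω a ∈ usq (en a.1) := by
  have h1 : ∀ᵐ x ∂(μs a.1), x ∈ usq (en a.1) := ae_restrict_mem (measurableSet_usq _)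
  exact (mp_pt a).quasiMeasurePreserving.ae h1

theorem ae_pt_ne {a b : ℕ × ℕ} (hab : a ≠ b) : ∀ᵐ ω ∂PP, pt ω a ≠ pt ω b := by
  by_cases hn : a.1 = b.1
  · obtain ⟨n, l⟩ := a
    obtain ⟨n', l'⟩ := b
    simp only at hn
    subst hn
    have hl : l ≠ l' := fun h => hab (by rw [h])
    have h1 : (Measure.infinitePi fun _ : ℕ => μs n).map (fun x => (x l, x l')) =
        (μs n).prod (μs n) :=
      Measure.infinitePi_map_eval_prod (P := fun _ : ℕ => μs n) hl
    have h2 : ∀ᵐ z ∂((μs n).prod (μs n)), z.1 ≠ z.2 := by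
      have hm : MeasurableSet {z : Pt × Pt | z.1 = z.2} :=
        measurableSet_eq_fun measurable_fst measurable_snd
      rw [ae_iff]
      simp only [ne_eq, not_not]
      rw [Measure.measure_prod_null hm]
      refine Filter.Eventually.of_forall fun x => ?_
      have : (Prod.mk x ⁻¹' {z : Pt × Pt | z.1 = z.2}) = {x} := by
        ext y
        simp [eq_comm]
      change (μs n) (Prod.mk x ⁻¹' {z : Pt × Pt | z.1 = z.2}) = 0
      rw [this]
      exact measure_singleton x
    rw [← h1] at h2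
    have h3 := ae_of_ae_map (by fun_prop) h2
    exact (mp_snd n).quasiMeasurePreserving.ae h3
  · filter_upwards [ae_pt_mem a, ae_pt_mem b] with ω ha hb heq
    rw [heq, mem_usq_iff] at ha
    rw [mem_usq_iff] at hb
    apply hn
    apply en.injective
    exact Prod.ext (ha.1.symm.trans hb.1) (ha.2.symm.trans hb.2)

theorem ae_good : ∀ᵐ ω ∂PP, ω ∈ good := by
  have : ∀ᵐ ω ∂PP, ∀ a b : ℕ × ℕ, a ≠ b → pt ω a ≠ pt ω b := by
    rw [ae_all_iff]
    intro a
    rw [ae_all_iff]
    intro b
    by_cases h : a = b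
    · exact Filter.Eventually.of_forall fun ω h' => absurd h h'
    · filter_upwards [ae_pt_ne h] with ω hω _
      exact hω
  exact this

end Pool.Agent.Helper38_Strip.H51P
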