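import Pool.Agent.Helper51_Strip.Pex2

/-!
# LIS PEX, part 3: the law
-/

namespace Pool.Agent.Helper38_Strip.H51P

open MeasureTheory ProbabilityTheory Filter Topology
open scoped ENNReal NNReal

/-- some point of the square is in `U` -/
def hit (U : Set Pt) : Set (ℕ × (ℕ → Pt)) := {z | ∃ l < z.1, z.2 l ∈ U}

theorem measurableSet_hit {U : Set Pt} (hU : MeasurableSet U) : MeasurableSet (hit U) := by
  have : hit U = ⋃ l : ℕ, {z : ℕ × (ℕ → Pt) | l < z.1} ∩ {z | z.2 l ∈ U} := by
    ext z
    simp [hit]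
  rw [this]
  refine MeasurableSet.iUnion fun l => ?_
  refine (measurableSet_lt measurable_const measurable_fst).inter ?_
  exact ((measurable_pi_apply l).comp measurable_snd) hU

theorem real_hit_le {U : Set Pt} (hU : MeasurableSet U) (n : ℕ) :
    (Pn n).real (hit U) ≤ (μs n).real U := by
  classical
  set g : Pt → ℂ := Uᶜ.indicator fun _ => 1 with hg
  have hgm : Measurable g := measurable_const.indicator hU.compl
  have hg1 : ∀ x, ‖g x‖ ≤ 1 := by
    intro x
    rw [hg, Set.indicator_apply]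
    split_ifs <;> simp
  have hF : ∀ z, Fn g z = (hit U)ᶜ.indicator (fun _ => (1 : ℂ)) z := by
    intro z
    unfold Fn
    by_cases hz : z ∈ hit U
    · rw [Set.indicator_of_notMem (by simpa using hz)]
      obtain ⟨l, hl, hlU⟩ := hz
      refine Finset.prod_eq_zero (Finset.mem_range.2 hl) ?_
      rw [hg, Set.indicator_of_notMem (by simpa using hlU)]
    · rw [Set.indicator_of_mem (by simpa using hz)]
      refine Finset.prod_eq_one fun l hl => ?_
      rw [hg, Set.indicator_of_mem]
      intro hlU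
      exact hz ⟨l, Finset.mem_range.1 hl, hlU⟩
  have h1 := integral_Fn hgm hg1 n
  simp only [hF] at h1
  rw [integral_indicator_const _ (measurableSet_hit hU).compl, hg,
    integral_indicator_const _ hU.compl, probReal_compl_eq_one_sub (measurableSet_hit hU),
    probReal_compl_eq_one_sub hU] at h1
  have h2 : (1 - (Pn n).real (hit U)) = Real.exp (-(μs n).real U) := by
    have h3 : (((1 - (Pn n).real (hit U) : ℝ)) : ℂ) = ((Real.exp (-(μs n).real U) : ℝ) : ℂ) := by
      rw [Complex.ofReal_exp]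
      rw [Complex.real_smul, mul_one, Complex.real_smul, mul_one] at h1
      rw [h1]
      congr 1
      push_cast
      ring
    exact_mod_cast h3
  have h4 := Real.add_one_le_exp (-(μs n).real U)
  linarith

theorem hit_le {U : Set Pt} (hU : MeasurableSet U) (n : ℕ) : (Pn n) (hit U) ≤ μs n U := by
  have h := real_hit_le hU n
  rw [Measure.real, Measure.real] at h
  exact (ENNReal.toReal_le_toReal (measure_ne_top _ _) (measure_ne_top _ _)).1 h

theorem ae_eventually {U : Set Pt} (hU : MeasurableSet U) (hv : volume U < ⊤) :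
    ∀ᵐ ω ∂PP, ∀ᶠ n in atTop, ω n ∉ hit U := by
  have h1 : (∑' n, PP {ω : Om | ω n ∈ hit U}) ≠ ⊤ := by
    have h2 : ∀ n, PP {ω : Om | ω n ∈ hit U} ≤ μs n U := by
      intro n
      have h3 : PP {ω : Om | ω n ∈ hit U} = Pn n (hit U) :=
        (mp_eval n).measure_preimage (measurableSet_hit hU).nullMeasurableSet
      rw [h3]
      exact hit_le hU n
    refine ne_of_lt (lt_of_le_of_lt (ENNReal.tsum_le_tsum h2) ?_)
    rw [tsum_μs hU]
    exact hv
  exact ae_eventually_notMem h1

/-- the number of points -/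
noncomputable def KK (B : Set Pt) (ω : Om) : ℕ := (JJ B ω).ncard

theorem measurable_KK {B : Set Pt} (hB : MeasurableSet B) : Measurable (KK B) :=
  measurable_ncard.comp (measurable_JJ hB)

/-- the points in `B` as a finite set -/
theorem JJ_eq {B U : Set Pt} (hBU : B ⊆ U) {ω : Om} {M : ℕ} (hM : ∀ n ≥ M, ω n ∉ hit U) :
    ∃ F : Finset (ℕ × ℕ), (F : Set (ℕ × ℕ)) = JJ B ω ∧
      (F.card : ℝ) = ∑ n ∈ Finset.range M, ∑ l ∈ Finset.range (ω n).1,
        B.indicator (fun _ => (1 : ℝ)) ((ω n).2 l) := by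
  classical
  refine ⟨((Finset.range M).sigma (fun n => (Finset.range (ω n).1).filter
    fun l => (ω n).2 l ∈ B)).map (Equiv.sigmaEquivProd ℕ ℕ).toEmbedding, ?_, ?_⟩
  · ext ⟨n, l⟩
    simp only [Finset.coe_map, Set.mem_image, Finset.mem_coe, Finset.mem_sigma, Finset.mem_range,
      Finset.mem_filter]
    constructor
    · rintro ⟨⟨n', l'⟩, ⟨h1, h2, h3⟩, h4⟩
      have h5 : (n', l') = (n, l) := h4
      rw [Prod.mk.injEq] at h5
      obtain ⟨rfl, rfl⟩ := h5
      exact ⟨h2, h3⟩
    · rintro ⟨h1, h2⟩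
      refine ⟨⟨n, l⟩, ⟨?_, h1, h2⟩, rfl⟩
      by_contra h
      change ¬ n < M at h
      exact hM n (by omega) ⟨l, h1, hBU h2⟩
  · rw [Finset.card_map, Finset.card_sigma]
    push_cast
    refine Finset.sum_congr rfl fun n _ => ?_
    rw [Finset.card_filter]
    push_cast
    refine Finset.sum_congr rfl fun l _ => ?_
    rw [Set.indicator_apply]

/-- the exponential function of the counts -/
noncomputable def gg {r : ℕ} (B : Fin r → Set Pt) (t : Fin r → ℝ) (x : Pt) : ℂ :=
  Complex.exp (((∑ j, t j * (B j).indicator (fun _ => (1 : ℝ)) x : ℝ) : ℂ) * Complex.I)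

theorem measurable_gg {r : ℕ} {B : Fin r → Set Pt} (hB : ∀ i, MeasurableSet (B i))
    (t : Fin r → ℝ) : Measurable (gg B t) := by
  unfold gg
  refine Complex.measurable_exp.comp ((Complex.measurable_ofReal.comp ?_).mul_const _)
  exact Finset.measurable_fun_sum _ fun j _ => (measurable_const.indicator (hB j)).const_mul _

theorem norm_gg {r : ℕ} (B : Fin r → Set Pt) (t : Fin r → ℝ) (x : Pt) : ‖gg B t x‖ ≤ 1 := by
  unfold gg
  rw [Complex.norm_exp_ofReal_mul_I]

theorem gg_sub_one {r : ℕ} {B : Fin r → Set Pt} (hd : ∀ i j, i ≠ j → Disjoint (B i) (B j))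
    (t : Fin r → ℝ) (x : Pt) :
    gg B t x - 1 = ∑ j, (B j).indicator (fun _ => Complex.exp (t j * Complex.I) - 1) x := by
  unfold gg
  by_cases h : ∃ j, x ∈ B j
  · obtain ⟨j, hj⟩ := h
    have h1 : ∀ i ≠ j, x ∉ B i := fun i hi hx => (Set.disjoint_left.1 (hd i j hi)) hx hj
    rw [Finset.sum_eq_single j, Finset.sum_eq_single j]
    · rw [Set.indicator_of_mem hj, Set.indicator_of_mem hj, mul_one]
    · intro i _ hi
      exact Set.indicator_of_notMem (h1 i hi) _
    · intro h
      exact absurd (Finset.mem_univ j) h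
    · intro i _ hi
      rw [Set.indicator_of_notMem (h1 i hi), mul_zero]
    · intro h
      exact absurd (Finset.mem_univ j) h
  · have h1 : ∀ j, x ∉ B j := fun j hj => h ⟨j, hj⟩
    rw [Finset.sum_eq_zero, Finset.sum_eq_zero]
    · simp
    · intro j _
      exact Set.indicator_of_notMem (h1 j) _
    · intro j _
      rw [Set.indicator_of_notMem (h1 j), mul_zero]

theorem integral_gg {r : ℕ} {B : Fin r → Set Pt} (hB : ∀ i, MeasurableSet (B i))
    (hd : ∀ i j, i ≠ j → Disjoint (B i) (B j)) (t : Fin r → ℝ) (n : ℕ) :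
    (∫ x, gg B t x ∂(μs n)) - 1 =
      ∑ j, ((μs n).real (B j) : ℂ) * (Complex.exp (t j * Complex.I) - 1) := by
  have h1 : (∫ x, gg B t x ∂(μs n)) - 1 = ∫ x, (gg B t x - 1) ∂(μs n) := by
    rw [integral_sub]
    · simp
    · refine Integrable.of_bound (measurable_gg hB t).aestronglyMeasurable 1 ?_
      exact Filter.Eventually.of_forall fun z => norm_gg B t z
    · exact integrable_const _
  rw [h1]
  simp only [gg_sub_one hd]
  rw [integral_finsetSum]
  · refine Finset.sum_congr rfl fun j _ => ?_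
    rw [integral_indicator_const _ (hB j), Complex.real_smul]
  · intro j _
    exact (integrable_const _).indicator (hB j)

theorem prod_gg {r : ℕ} {B : Fin r → Set Pt} {U : Set Pt} (hBU : ∀ i, B i ⊆ U)
    (t : Fin r → ℝ) {ω : Om} {M : ℕ} (hM : ∀ n ≥ M, ω n ∉ hit U) :
    ∏ n ∈ Finset.range M, Fn (gg B t) (ω n) =
      Complex.exp (((∑ j, t j * (KK (B j) ω : ℝ) : ℝ) : ℂ) * Complex.I) := by
  have h1 : ∀ j, (KK (B j) ω : ℝ) = ∑ n ∈ Finset.range M, ∑ l ∈ Finset.range (ω n).1,
        (B j).indicator (fun _ => (1 : ℝ)) ((ω n).2 l) := by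
    intro j
    obtain ⟨F, hF, hc⟩ := JJ_eq (hBU j) hM
    rw [← hc, KK, ← hF, Set.ncard_coe_finset]
  simp only [h1]
  have h2 : ∑ j, t j * ∑ n ∈ Finset.range M, ∑ l ∈ Finset.range (ω n).1,
        (B j).indicator (fun _ => (1 : ℝ)) ((ω n).2 l) =
      ∑ n ∈ Finset.range M, ∑ l ∈ Finset.range (ω n).1,
        ∑ j, t j * (B j).indicator (fun _ => (1 : ℝ)) ((ω n).2 l) := by
    simp only [Finset.mul_sum]
    rw [Finset.sum_comm]
    refine Finset.sum_congr rfl fun n _ => ?_
    rw [Finset.sum_comm]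
  rw [h2]
  push_cast
  rw [Finset.sum_mul, Complex.exp_sum]
  refine Finset.prod_congr rfl fun n _ => ?_
  unfold Fn
  rw [Finset.sum_mul, Complex.exp_sum]
  refine Finset.prod_congr rfl fun l _ => ?_
  unfold gg
  push_cast
  rfl

theorem charFun_KK {r : ℕ} {B : Fin r → Set Pt} (hB : ∀ i, MeasurableSet (B i))
    (hv : ∀ i, volume (B i) < ⊤) (hd : ∀ i j, i ≠ j → Disjoint (B i) (B j)) (t : Fin r → ℝ) :
    ∫ ω, Complex.exp (((∑ j, t j * (KK (B j) ω : ℝ) : ℝ) : ℂ) * Complex.I) ∂PP =
      Complex.exp (∑ j, ((volume.real (B j) : ℝ) : ℂ) * (Complex.exp (t j * Complex.I) - 1)) := by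
  set U : Set Pt := ⋃ i, B i with hU
  have hUm : MeasurableSet U := MeasurableSet.iUnion hB
  have hUv : volume U < ⊤ := by
    refine lt_of_le_of_lt (measure_iUnion_fintype_le _ _) ?_
    exact ENNReal.sum_lt_top.2 fun i _ => hv i
  have hBU : ∀ i, B i ⊆ U := fun i => Set.subset_iUnion B i
  have h1 : Tendsto (fun M : ℕ => ∫ ω, ∏ n ∈ Finset.range M, Fn (gg B t) (ω n) ∂PP) atTop
      (𝓝 (∫ ω, Complex.exp (((∑ j, t j * (KK (B j) ω : ℝ) : ℝ) : ℂ) * Complex.I) ∂PP)) := by
    refine tendsto_integral_of_dominated_convergence (fun _ => (1 : ℝ)) ?_ (integrable_const _)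
      ?_ ?_
    · intro M
      refine Measurable.aestronglyMeasurable ?_
      exact Finset.measurable_fun_prod _ fun n _ =>
        (measurable_Fn (measurable_gg hB t)).comp (measurable_pi_apply n)
    · intro M
      refine Filter.Eventually.of_forall fun ω => ?_
      rw [norm_prod]
      exact Finset.prod_le_one (fun _ _ => norm_nonneg _) fun n _ =>
        norm_Fn_le (norm_gg B t) _
    · filter_upwards [ae_eventually hUm hUv] with ω hω
      obtain ⟨M₀, hM₀⟩ := Filter.eventually_atTop.1 hω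
      refine tendsto_const_nhds.congr' ?_
      filter_upwards [Filter.eventually_ge_atTop M₀] with M hM
      exact (prod_gg hBU t fun n hn => hM₀ n (le_trans hM hn)).symm
  have h2 : Tendsto (fun M : ℕ => ∫ ω, ∏ n ∈ Finset.range M, Fn (gg B t) (ω n) ∂PP) atTop
      (𝓝 (Complex.exp (∑ j, ((volume.real (B j) : ℝ) : ℂ) *
        (Complex.exp (t j * Complex.I) - 1)))) := by
    have h3 : ∀ M : ℕ, ∫ ω, ∏ n ∈ Finset.range M, Fn (gg B t) (ω n) ∂PP =
        Complex.exp (∑ j, ((∑ n ∈ Finset.range M, (μs n).real (B j) : ℝ) : ℂ) *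
          (Complex.exp (t j * Complex.I) - 1)) := by
      intro M
      rw [integral_prod_Fn (measurable_gg hB t) (norm_gg B t)]
      congr 1
      simp only [integral_gg hB hd]
      rw [Finset.sum_comm]
      refine Finset.sum_congr rfl fun j _ => ?_
      push_cast
      rw [Finset.sum_mul]
    simp only [h3]
    refine (Complex.continuous_exp.tendsto _).comp ?_
    refine tendsto_finsetSum _ fun j _ => ?_
    refine Tendsto.mul_const _ ?_
    refine (Complex.continuous_ofReal.tendsto _).comp ?_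
    have h4 : (∑' n, μs n (B j)) ≠ ⊤ := by
      rw [tsum_μs (hB j)]
      exact (hv j).ne
    have h5 := ENNReal.hasSum_toReal h4
    rw [← ENNReal.tsum_toReal_eq (ENNReal.ne_top_of_tsum_ne_top h4), tsum_μs (hB j)] at h5
    exact h5.tendsto_sum_nat
  exact tendsto_nhds_unique h1 h2

end Pool.Agent.Helper38_Strip.H51P
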